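import Pool.Agent.U111.NGC.Main
import Pool.Agent.Results.MP_d26ff6_al.ValueGroupProducts

set_option autoImplicit false

namespace Pool.Agent.U111.NGC

open Pool.Agent.H315R3.ETC Pool.Agent.TH188.ET Pool.Agent.TH673.VG

universe u
variable {F : Type u} [Field F]

/-- fields in which products of norm groups are norm groups -/
theorem products (h2 : (2 : F) ≠ 0) (hfin : FinSq F) :
    ((∃ S : QData, ProdTwo S ∧ IsStructureOf F S) ↔
      ∀ a b : Fˣ, ∃ c : Fˣ, normGroup c = normGroup a ⊔ normGroup b) ∧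
    ((∃ S : QData, ProdTwo S ∧ IsStructureOf F S) ↔
      (∃ S : QData, Elem S ∧ IsStructureOf F S) ∧
        ∀ a b : Fˣ, normGroup a ⊔ normGroup b ⊔ normGroup (a * b) = ⊤) ∧
    ((∃ S : QData, ProdTwo S ∧ IsStructureOf F S) ↔
      Subgroup.closure {a : Fˣ | (normGroup a).index ≤ 2} = ⊤) := by
  obtain ⟨S, hS, hSfin, hSq⟩ := exists_structure h2 hfin
  obtain ⟨φ, hs, hk, hn, h0, hq⟩ := id hS
  have hz : ∀ a b : Fˣ, S.q (φ a) (φ b) = S.zero ↔ NormFrom a b := by
    intro a b
    rw [← qiso_one h2, ← h0, ← map_one φ]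
    exact hq a b 1 1
  obtain ⟨r1, -, -, r4, -, -, r7⟩ :=
    Pool.Agent.Results.MP_d26ff6_al.ValueGroupProducts.result S hSq hSfin
  have hP : (∃ S : QData, ProdTwo S ∧ IsStructureOf F S) ↔ ProdTwo S :=
    ⟨fun ⟨T, hT, hTs⟩ => ProdTwo.iso _ _ hT hSq (iso_of_structure hTs hS), fun h => ⟨S, h, hS⟩⟩
  have hE : (∃ S : QData, Elem S ∧ IsStructureOf F S) ↔ Elem S :=
    ⟨fun ⟨T, hT, hTs⟩ => Elem.iso _ _ hT (iso_of_structure hTs hS), fun h => ⟨S, h, hS⟩⟩
  rw [hP, hE]
  refine ⟨r1.trans ?_, r4.trans ?_, r7.trans ?_⟩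
  · constructor
    · intro h a b
      obtain ⟨c, hc⟩ := h (φ a) (φ b)
      obtain ⟨c, rfl⟩ := hs c
      refine ⟨c, ?_⟩
      ext x
      rw [mem_sup_norm hs hk hz, ← hc (φ x)]
      exact (hz c x).symm
    · intro h a b
      obtain ⟨a, rfl⟩ := hs a
      obtain ⟨b, rfl⟩ := hs b
      obtain ⟨c, hc⟩ := h a b
      refine ⟨φ c, fun x => ?_⟩
      obtain ⟨x, rfl⟩ := hs x
      rw [← mem_sup_norm hs hk hz, ← hc]
      exact hz c x
  · rw [and_comm]
    refine and_congr Iff.rfl ?_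
    have key : ∀ a b x : Fˣ, x ∈ normGroup a ⊔ normGroup b ⊔ normGroup (a * b) ↔
        ∃ u v w : S.G, S.q (φ a) u = S.zero ∧ S.q (φ b) v = S.zero ∧
          S.q (φ a * φ b) w = S.zero ∧ u * v * w = φ x := by
      intro a b x
      constructor
      · intro hx
        obtain ⟨p, hp, w, hw, e⟩ := Subgroup.mem_sup.1 hx
        obtain ⟨u, v, hu, hv, e'⟩ := (mem_sup_norm hs hk hz a b p).1 hp
        exact ⟨u, v, φ w, hu, hv, by rw [← map_mul]; exact (hz _ _).2 hw,
          by rw [e', ← map_mul, e]⟩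
      · rintro ⟨u, v, w, hu, hv, hw, e⟩
        obtain ⟨u, rfl⟩ := hs u
        obtain ⟨v, rfl⟩ := hs v
        obtain ⟨w, rfl⟩ := hs w
        rw [← map_mul] at hw
        have hp : u * v ∈ normGroup a ⊔ normGroup b :=
          Subgroup.mul_mem_sup ((hz _ _).1 hu) ((hz _ _).1 hv)
        refine Subgroup.mem_sup.2 ⟨u * v, hp, (u * v)⁻¹ * x, ?_, mul_inv_cancel_left _ _⟩
        have e1 : φ ((u * v)⁻¹ * x) = φ w := by
          rw [map_mul, map_inv, ← e, ← map_mul, inv_mul_cancel_left]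
        have e2 : w⁻¹ * ((u * v)⁻¹ * x) ∈ normGroup (a * b) := ker_le hk _ (by
          rw [MonoidHom.mem_ker, map_mul, map_inv, e1, inv_mul_cancel])
        have e3 := (normGroup (a * b)).mul_mem ((hz _ w).1 hw : w ∈ normGroup (a * b)) e2
        rwa [mul_inv_cancel_left] at e3
    constructor
    · intro h a b
      rw [eq_top_iff]
      intro x _
      exact (key a b x).2 (h (φ a) (φ b) (φ x))
    · intro h a b x
      obtain ⟨a, rfl⟩ := hs a
      obtain ⟨b, rfl⟩ := hs b
      obtain ⟨x, rfl⟩ := hs x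
      refine (key a b x).1 ?_
      rw [h a b]
      trivial
  · have e1 : (Subgroup.closure {a : Fˣ | (normGroup a).index ≤ 2}).map φ = IdxGroup S := by
      rw [MonoidHom.map_closure, IdxGroup]
      congr 1
      ext y
      constructor
      · rintro ⟨a, ha, rfl⟩
        exact (index_two_iff hs hk hSfin hz a).1 ha
      · intro hy
        obtain ⟨a, rfl⟩ := hs y
        exact ⟨a, (index_two_iff hs hk hSfin hz a).2 hy, rfl⟩
    have e2 : φ.ker ≤ Subgroup.closure {a : Fˣ | (normGroup a).index ≤ 2} := by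
      intro b hb
      refine Subgroup.subset_closure ?_
      have ht : normGroup b = ⊤ := by
        rw [eq_top_iff]
        intro c _
        exact NormFrom.of_sq h2 b c ((hk b).1 hb)
      show (normGroup b).index ≤ 2
      rw [ht, Subgroup.index_top]
      norm_num
    constructor
    · intro h
      rw [h] at e1
      rw [← Subgroup.comap_map_eq_self e2, e1, Subgroup.comap_top]
    · intro h
      rw [← e1, h, Subgroup.map_top_of_surjective φ hs]

end Pool.Agent.U111.NGC
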