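import Pool.Agent.TH673.VG.FieldDefs

/-! Norm group criteria for elementary type: definitions. -/

set_option autoImplicit false

namespace Pool.Agent.U111.NGC

open Pool.Agent.TH188.ET Pool.Agent.TH673.VG

universe u

variable {F : Type u} [Field F]

/-- some `a` outside `H` satisfies `N(ah) ⊆ N(a) H` for all `h ∈ H` -/
def NormStep (H : Subgroup Fˣ) : Prop :=
  ∃ a : Fˣ, a ∉ H ∧ ∀ h ∈ H, normGroup (a * h) ≤ normGroup a ⊔ H

/-- some `a` outside `H` and some `g ∈ H` satisfy `N(ah) ⊆ N(a) H ∪ N(ag) H ∪ N(a) N(ag)` for all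
`h ∈ H` -/
def NormStepTwo (H : Subgroup Fˣ) : Prop :=
  ∃ a : Fˣ, a ∉ H ∧ ∃ g ∈ H, ∀ h ∈ H, ∀ x ∈ normGroup (a * h),
    x ∈ normGroup a ⊔ H ∨ x ∈ normGroup (a * g) ⊔ H ∨ x ∈ normGroup a ⊔ normGroup (a * g)

/-- for some `a` outside `H`, any two elements outside `N(a) H` which lie in groups `N(ag)`,
`N(ag')` with `g, g' ∈ H` lie in one group `N(ak)`, `k ∈ H` -/
def NormPairs (H : Subgroup Fˣ) : Prop :=
  ∃ a : Fˣ, a ∉ H ∧ ∀ x y : Fˣ, x ∉ normGroup a ⊔ H → y ∉ normGroup a ⊔ H →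
    ∀ g ∈ H, ∀ g' ∈ H, x ∈ normGroup (a * g) → y ∈ normGroup (a * g') →
    ∃ k ∈ H, x ∈ normGroup (a * k) ∧ y ∈ normGroup (a * k)

/-- `a` is good over `L`: for every subgroup `H` with `L ≤ H` and `a ∉ H` there is `g ∈ H` with
`N(ah) ⊆ N(a) H ∪ N(a) N(ag)` for all `h ∈ H` -/
def NormGood (L : Subgroup Fˣ) (a : Fˣ) : Prop :=
  ∀ H : Subgroup Fˣ, L ≤ H → a ∉ H → ∃ g ∈ H, ∀ h ∈ H, ∀ x ∈ normGroup (a * h),
    x ∈ normGroup a ⊔ H ∨ x ∈ normGroup a ⊔ normGroup (a * g)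

/-- the subgroups of `F*` obtained from the group of squares by successively adjoining elements
which are good over the subgroup already obtained -/
inductive NormChain (F : Type u) [Field F] : Subgroup Fˣ → Prop
  | squares : NormChain F (powMonoidHom 2 : Fˣ →* Fˣ).range
  | step (L : Subgroup Fˣ) (a : Fˣ) : NormChain F L → NormGood L a →
      NormChain F (L ⊔ Subgroup.zpowers a)

/-- the closed subgroups of index at least eight which are not generated by the core and one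
element -/
def Critical (H : Subgroup Fˣ) : Prop :=
  NormClosed H ∧ 8 ≤ H.index ∧ ∀ x : Fˣ, H ≠ fieldCore F ⊔ Subgroup.zpowers x

end Pool.Agent.U111.NGC
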