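import Pool.Agent.N88.ETC.Field
import Pool.Agent.TH673.VG.ChainInd
import Pool.Agent.U111.NGC.Defs

/-! Norm group criteria for elementary type: only the closed subgroups of index at least eight which
are not generated by the core and one element have to be checked, and a chain of good elements has to
reach a subgroup which together with the core has index at most four. -/

set_option autoImplicit false

namespace Pool.Agent.U111.NGC

open Pool.Agent.H315R3.ETC Pool.Agent.TH188.ET Pool.Agent.TH673.VG Pool.Agent.R19.QS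
  Pool.Agent.N88.ETC

universe u

/-! ### Quaternionic structures -/

section str

variable {S : QData} (h : IsQuat S)

include h in
/-- a subgroup not containing a chain subgroup has `StepTwo` -/
theorem stepTwo_of_chain [Finite S.G] {L : Subgroup S.G} (hC : Chain S L) (H : Subgroup S.G)
    (hLH : ¬ L ≤ H) : StepTwo S H := by
  obtain ⟨a, ha, g, hg, hM⟩ := good_of_chain hC H hLH
  refine ⟨a, ha, g, hg, fun k hk x hx => ?_⟩
  rcases hM k hk x x ((q_eq_iff h _ _ _).2 hx) with ⟨l, hl, e⟩ | ⟨z, e⟩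
  · left
    exact ⟨x * l, l, Or.inl ((h.qs3 _ _ _).1 e), hl, by rw [mul_assoc, h.exp2, mul_one]⟩
  · right
    obtain ⟨y, e1, e2⟩ := link h e
    exact ⟨x * y, y, (h.qs3 _ _ _).1 e1, e2, by rw [mul_assoc, h.exp2, mul_one]⟩

variable {B : Type*} [AddCommGroup B] {β : S.G → S.G → B}

/-- only closed subgroups of index at least eight which are not generated by the core and one
element have to be checked -/
theorem elem_of_check [Finite S.G] (hB : Add S β)
    (hM : ∀ H : Subgroup S.G, Closed S H → 8 ≤ H.index →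
      (∀ x : S.G, H ≠ Core S ⊔ Subgroup.zpowers x) →
      StepTwo S H ∨ ∃ a : S.G, a ∉ H ∧ Pairs h H a) : Elem S := by
  refine elem_of_closed h fun H hcl hi => ?_
  by_cases hx : ∃ x : S.G, H = Core S ⊔ Subgroup.zpowers x
  · obtain ⟨x, hx⟩ := hx
    exact canExt_of_one h hB (exists_out hi) x hx
  · push Not at hx
    rcases hM H hcl hi hx with h1 | ⟨a, ha, hP⟩
    · exact canExt_of_stepTwo h h1
    · exact canExt_of_pairs h ha hP

end str

/-! ### Fields -/

variable {F : Type u} [Field F]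

section dict

variable {S : QData} {φ : Fˣ →* S.G} (h : IsQuat S) (h2 : (2 : F) ≠ 0)
  (hs : Function.Surjective φ) (hk : ∀ a : Fˣ, φ a = 1 ↔ ∃ b : Fˣ, a = b ^ 2)
  (hz : ∀ a b : Fˣ, S.q (φ a) (φ b) = S.zero ↔ NormFrom a b)

include hk in
lemma ker_le (a : Fˣ) : φ.ker ≤ normGroup a := by
  intro b hb
  obtain ⟨c, rfl⟩ := (hk b).1 hb
  exact NormFrom.sq a c

include hk in
lemma ker_eq : φ.ker = (powMonoidHom 2 : Fˣ →* Fˣ).range := by
  ext b
  rw [MonoidHom.mem_ker, hk]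
  constructor
  · rintro ⟨c, rfl⟩
    exact ⟨c, rfl⟩
  · rintro ⟨c, rfl⟩
    exact ⟨c, rfl⟩

include hs hz in
lemma mem_sup_comap (a x : Fˣ) (K : Subgroup S.G) :
    x ∈ normGroup a ⊔ K.comap φ ↔
      ∃ v k : S.G, S.q (φ a) v = S.zero ∧ k ∈ K ∧ v * k = φ x := by
  constructor
  · intro hx
    obtain ⟨v, hv, k, hk', e⟩ := Subgroup.mem_sup.1 hx
    exact ⟨φ v, φ k, (hz a v).2 hv, hk', by rw [← map_mul, e]⟩
  · rintro ⟨v, k, hv, hk', e⟩
    obtain ⟨v, rfl⟩ := hs v
    refine Subgroup.mem_sup.2 ⟨v, (hz a v).1 hv, v⁻¹ * x, ?_, mul_inv_cancel_left v x⟩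
    have : φ (v⁻¹ * x) = k := by rw [map_mul, map_inv, ← e, inv_mul_cancel_left]
    show φ (v⁻¹ * x) ∈ K
    rw [this]
    exact hk'

include hs hk hz in
lemma mem_sup_norm (a b x : Fˣ) :
    x ∈ normGroup a ⊔ normGroup b ↔
      ∃ v w : S.G, S.q (φ a) v = S.zero ∧ S.q (φ b) w = S.zero ∧ v * w = φ x := by
  constructor
  · intro hx
    obtain ⟨v, hv, w, hw, e⟩ := Subgroup.mem_sup.1 hx
    exact ⟨φ v, φ w, (hz a v).2 hv, (hz b w).2 hw, by rw [← map_mul, e]⟩
  · rintro ⟨v, w, hv, hw, e⟩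
    obtain ⟨v, rfl⟩ := hs v
    obtain ⟨w, rfl⟩ := hs w
    refine Subgroup.mem_sup.2 ⟨v, (hz a v).1 hv, v⁻¹ * x, ?_, mul_inv_cancel_left v x⟩
    have e1 : φ (v⁻¹ * x) = φ w := by rw [map_mul, map_inv, ← e, inv_mul_cancel_left]
    have e2 : w⁻¹ * (v⁻¹ * x) ∈ normGroup b := ker_le hk b (by
      rw [MonoidHom.mem_ker, map_mul, map_inv, e1, inv_mul_cancel])
    have e3 := (normGroup b).mul_mem ((hz b w).1 hw : w ∈ normGroup b) e2
    rwa [mul_inv_cancel_left] at e3

include hs hz in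
lemma step_iff' (K : Subgroup S.G) : Step S K ↔ NormStep (K.comap φ) := by
  constructor
  · rintro ⟨a, ha, hM⟩
    obtain ⟨a, rfl⟩ := hs a
    refine ⟨a, ha, fun g hg x hx => ?_⟩
    rw [mem_sup_comap hs hz]
    refine hM (φ g) hg (φ x) ?_
    rw [← map_mul]
    exact (hz _ _).2 hx
  · rintro ⟨a, ha, hM⟩
    refine ⟨φ a, ha, fun g hg x hx => ?_⟩
    obtain ⟨g, rfl⟩ := hs g
    obtain ⟨x, rfl⟩ := hs x
    rw [← map_mul] at hx
    exact (mem_sup_comap hs hz a x K).1 (hM g hg ((hz _ _).1 hx))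

include hs hk hz in
lemma stepTwo_iff' (K : Subgroup S.G) : StepTwo S K ↔ NormStepTwo (K.comap φ) := by
  constructor
  · rintro ⟨a, ha, g, hg, hM⟩
    obtain ⟨a, rfl⟩ := hs a
    obtain ⟨g, rfl⟩ := hs g
    refine ⟨a, ha, g, hg, fun l hl x hx => ?_⟩
    rw [mem_sup_comap hs hz, mem_sup_comap hs hz, mem_sup_norm hs hk hz]
    rw [map_mul]
    rcases hM (φ l) hl (φ x) (by rw [← map_mul]; exact (hz _ _).2 hx) with
      ⟨v, k, hv | hv, hk', e⟩ | ⟨v, w, hv, hw, e⟩
    · exact Or.inl ⟨v, k, hv, hk', e⟩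
    · exact Or.inr (Or.inl ⟨v, k, hv, hk', e⟩)
    · exact Or.inr (Or.inr ⟨v, w, hv, hw, e⟩)
  · rintro ⟨a, ha, g, hg, hM⟩
    refine ⟨φ a, ha, φ g, hg, fun l hl x hx => ?_⟩
    obtain ⟨l, rfl⟩ := hs l
    obtain ⟨x, rfl⟩ := hs x
    rw [← map_mul] at hx
    have h1 := hM l hl x ((hz _ _).1 hx)
    rw [mem_sup_comap hs hz, mem_sup_comap hs hz, mem_sup_norm hs hk hz, map_mul] at h1
    rcases h1 with ⟨v, k, hv, hk', e⟩ | ⟨v, k, hv, hk', e⟩ | ⟨v, w, hv, hw, e⟩
    · exact Or.inl ⟨v, k, Or.inl hv, hk', e⟩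
    · exact Or.inl ⟨v, k, Or.inr hv, hk', e⟩
    · exact Or.inr ⟨v, w, hv, hw, e⟩

include hs hz in
lemma pairs_of_norm (K : Subgroup S.G) (hP : NormPairs (K.comap φ)) :
    ∃ a : S.G, a ∉ K ∧ Pairs h K a := by
  obtain ⟨a, ha, hM⟩ := hP
  refine ⟨φ a, ha, ?_⟩
  intro z z' g g' hzM hzM' hg hg' hgz hgz'
  obtain ⟨z, rfl⟩ := hs z
  obtain ⟨z', rfl⟩ := hs z'
  obtain ⟨g, rfl⟩ := hs g
  obtain ⟨g', rfl⟩ := hs g'
  rw [← map_mul] at hgz hgz'
  have hno : ∀ x : Fˣ, φ x ∉ D h (φ a) ⊔ K → x ∉ normGroup a ⊔ K.comap φ := by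
    intro x hx hc
    apply hx
    obtain ⟨v, k, hv, hk', e⟩ := (mem_sup_comap hs hz a x K).1 hc
    exact Subgroup.mem_sup.2 ⟨v, hv, k, hk', e⟩
  obtain ⟨k, hk', h3, h4⟩ := hM z z' (hno z hzM) (hno z' hzM') g hg g' hg' ((hz _ _).1 hgz)
    ((hz _ _).1 hgz')
  exact ⟨φ k, hk', by rw [← map_mul]; exact (hz _ _).2 h3, by
    rw [← map_mul]; exact (hz _ _).2 h4⟩

include hs hk hz in
lemma closed_iff' (hfin : Finite S.G) (K : Subgroup S.G) :
    NormClosed (K.comap φ) ↔ Closed S K := by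
  constructor
  · rintro ⟨h1, h3⟩
    refine ⟨fun a ha => ?_, fun a ha => ?_⟩
    · obtain ⟨a, rfl⟩ := hs a
      exact h1 a ((index_two_iff hs hk hfin hz a).2 ha)
    · obtain ⟨a, rfl⟩ := hs a
      exact h3 a ((sup_iff hs hk hz a K).2 ha)
  · rintro ⟨h1, h3⟩
    exact ⟨fun a ha => h1 _ ((index_two_iff hs hk hfin hz a).1 ha),
      fun a ha => h3 _ ((sup_iff hs hk hz a K).1 ha)⟩

include h hs hk hz in
/-- chains in the structure give chains in the field -/
lemma normChain_of_chain {L : Subgroup S.G} (hC : Chain S L) : NormChain F (L.comap φ) := by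
  induction hC with
  | bot =>
    have e : (⊥ : Subgroup S.G).comap φ = (powMonoidHom 2 : Fˣ →* Fˣ).range := by
      rw [MonoidHom.comap_bot, ker_eq hk]
    rw [e]
    exact NormChain.squares
  | step L a hL hg ih =>
    obtain ⟨a, rfl⟩ := hs a
    have e : (L ⊔ Subgroup.zpowers (φ a)).comap φ = L.comap φ ⊔ Subgroup.zpowers a := by
      have e1 : (L.comap φ ⊔ Subgroup.zpowers a).map φ = L ⊔ Subgroup.zpowers (φ a) := by
        rw [Subgroup.map_sup, Subgroup.map_comap_eq_self_of_surjective hs,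
          MonoidHom.map_zpowers]
      rw [← e1]
      refine Subgroup.comap_map_eq_self (le_trans ?_ le_sup_left)
      exact Subgroup.comap_mono bot_le
    rw [e]
    refine NormChain.step _ _ ih fun H hLH haH => ?_
    have hkH : φ.ker ≤ H := le_trans (Subgroup.comap_mono bot_le) hLH
    have eH : (H.map φ).comap φ = H := Subgroup.comap_map_eq_self hkH
    have ha' : φ a ∉ H.map φ := fun hc => haH (by rw [← eH]; exact hc)
    have hLH' : L ≤ H.map φ := by
      rw [← Subgroup.map_comap_eq_self_of_surjective hs L]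
      exact Subgroup.map_mono hLH
    obtain ⟨g, ⟨g, hgH, rfl⟩, hM⟩ := hg (H.map φ) hLH' ha'
    refine ⟨g, hgH, fun l hl x hx => ?_⟩
    have hx' : S.q (φ a) (φ x) = S.q (φ l) (φ x) := by
      rw [q_eq_iff h]
      show S.q (φ a * φ l) (φ x) = S.zero
      rw [← map_mul]
      exact (hz _ _).2 hx
    rw [← eH, mem_sup_comap hs hz, mem_sup_norm hs hk hz, map_mul]
    rcases hM (φ l) ⟨l, hl, rfl⟩ _ _ hx' with ⟨k, hk', e⟩ | ⟨z, e⟩
    · exact Or.inl ⟨φ x * k, k, (h.qs3 _ _ _).1 e, hk', by rw [mul_assoc, h.exp2, mul_one]⟩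
    · obtain ⟨y, e1, e2⟩ := link h e
      exact Or.inr ⟨φ x * y, y, (h.qs3 _ _ _).1 e1, e2, by rw [mul_assoc, h.exp2, mul_one]⟩

include h hs hk hz in
/-- chains in the field give chains in the structure -/
lemma chain_of_normChain {L : Subgroup Fˣ} (hC : NormChain F L) : Chain S (L.map φ) := by
  induction hC with
  | squares =>
    have e : (powMonoidHom 2 : Fˣ →* Fˣ).range.map φ = ⊥ := by
      rw [← ker_eq hk, Subgroup.map_eq_bot_iff]
    rw [e]
    exact Chain.bot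
  | step L a hL hg ih =>
    rw [Subgroup.map_sup, MonoidHom.map_zpowers]
    refine Chain.step _ _ ih fun K hLK haK => ?_
    obtain ⟨g, hgK, hM⟩ := hg (K.comap φ) (Subgroup.map_le_iff_le_comap.1 hLK) haK
    refine ⟨φ g, hgK, fun l hl x y e => ?_⟩
    obtain ⟨l, rfl⟩ := hs l
    obtain ⟨z, e1, e2⟩ := link h e
    obtain ⟨z, rfl⟩ := hs z
    have hzl : z ∈ normGroup (a * l) := by
      have e3 : S.q (φ a * φ l) (φ z) = S.zero := e2
      rw [← map_mul] at e3
      exact (hz _ _).1 e3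
    have h1 := hM l hl z hzl
    rw [mem_sup_comap hs hz, mem_sup_norm hs hk hz, map_mul] at h1
    rcases h1 with ⟨v, k, hv, hk', e3⟩ | ⟨v, w, hv, hw, e3⟩
    · exact Or.inl ⟨k, hk', by rw [e1, ← e3, q_shift h _ hv]⟩
    · refine Or.inr ⟨w, ?_⟩
      rw [e1, ← e3, q_shift h _ hv, q_eq_iff h]
      exact hw

end dict

/-- the norm group criteria -/
theorem criteria (h2 : (2 : F) ≠ 0) (hfin : FinSq F) :
    ((∃ S : QData, Elem S ∧ IsStructureOf F S) ↔
      ∀ H : Subgroup Fˣ, H ≠ ⊤ → NormStep H) ∧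
    ((∃ S : QData, Elem S ∧ IsStructureOf F S) ↔
      ∀ H : Subgroup Fˣ, Critical H → NormStepTwo H ∨ NormPairs H) ∧
    ((∃ S : QData, Elem S ∧ IsStructureOf F S) ↔ NormChain F ⊤) ∧
    ((∃ S : QData, Elem S ∧ IsStructureOf F S) ↔
      ∃ L : Subgroup Fˣ, NormChain F L ∧ (L ⊔ fieldCore F).index ≤ 4) := by
  obtain ⟨S, hS, hSfin, hSq, ⟨β, hβ⟩, hidx, -⟩ := field_add h2 hfin
  obtain ⟨φ, hs, hk, hn, h0, hq⟩ := id hS
  have hz : ∀ a b : Fˣ, S.q (φ a) (φ b) = S.zero ↔ NormFrom a b := by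
    intro a b
    rw [← qiso_one h2, ← h0, ← map_one φ]
    exact hq a b 1 1
  have hcore := core_comap h2 hs hk hSfin hz
  have hE : (∃ S : QData, Elem S ∧ IsStructureOf F S) ↔ Elem S :=
    ⟨fun ⟨T, hT, hTs⟩ => Elem.iso _ _ hT (iso_of_structure hTs hS), fun h => ⟨S, h, hS⟩⟩
  -- the first criterion
  have h1 : Elem S → ∀ H : Subgroup Fˣ, H ≠ ⊤ → NormStep H := by
    intro hEl H hH
    by_cases ht : H ⊔ φ.ker = ⊤
    · obtain ⟨a, ha⟩ : ∃ a : Fˣ, a ∉ H := by
        by_contra hc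
        push Not at hc
        exact hH (eq_top_iff.2 fun x _ => hc x)
      refine ⟨a, ha, fun g _ => le_trans le_top ?_⟩
      rw [← ht]
      exact sup_le le_sup_right (le_trans (ker_le hk a) le_sup_left)
    · have eH : (H.map φ).comap φ = H ⊔ φ.ker := Subgroup.comap_map_eq φ H
      have hK : H.map φ ≠ ⊤ := by
        intro hc
        rw [hc, Subgroup.comap_top] at eH
        exact ht eH.symm
      obtain ⟨a, ha, hM⟩ := (step_iff' hs hz _).1 (stepAll_of_elem hSq hEl (H.map φ) hK)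
      rw [eH] at ha hM
      refine ⟨a, fun hc => ha ((le_sup_left : H ≤ H ⊔ φ.ker) hc), fun g hg => ?_⟩
      refine (hM g ((le_sup_left : H ≤ H ⊔ φ.ker) hg)).trans ?_
      exact sup_le le_sup_left (sup_le le_sup_right (le_trans (ker_le hk a) le_sup_left))
  have two_of_one : ∀ H : Subgroup Fˣ, NormStep H → NormStepTwo H := by
    rintro H ⟨a, ha, hM⟩
    exact ⟨a, ha, 1, H.one_mem, fun g hg x hx => Or.inl (hM g hg hx)⟩
  have top_of : ∀ H : Subgroup Fˣ, 8 ≤ H.index → H ≠ ⊤ := by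
    rintro H hi rfl
    rw [Subgroup.index_top] at hi
    omega
  -- the second criterion
  have h21 : (∀ H : Subgroup Fˣ, Critical H → NormStepTwo H ∨ NormPairs H) → Elem S := by
    intro hM
    refine elem_of_check hSq hβ fun K hcl hi hx => ?_
    have hcr : Critical (K.comap φ) := by
      refine ⟨(closed_iff' hs hk hz hSfin K).2 hcl, ?_, fun x hc => ?_⟩
      · rwa [Subgroup.index_comap_of_surjective _ hs]
      · apply hx (φ x)
        have e := congrArg (Subgroup.map φ) hc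
        rw [Subgroup.map_comap_eq_self_of_surjective hs, Subgroup.map_sup, hcore,
          Subgroup.map_comap_eq_self_of_surjective hs, MonoidHom.map_zpowers] at e
        exact e
    rcases hM _ hcr with h3 | h3
    · exact Or.inl ((stepTwo_iff' hs hk hz K).2 h3)
    · exact Or.inr (pairs_of_norm hSq hs hz K h3)
  -- chains
  have h31 : Elem S → NormChain F ⊤ := by
    intro hEl
    have h3 := normChain_of_chain hSq hs hk hz (chain_of_goodAll (goodAll_of_elem hSq hEl))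
    rwa [Subgroup.comap_top] at h3
  have h41 : (∃ L : Subgroup Fˣ, NormChain F L ∧ (L ⊔ fieldCore F).index ≤ 4) → Elem S := by
    rintro ⟨L, hL, hi⟩
    refine elem_of_check hSq hβ fun K hcl h8 _ => Or.inl ?_
    by_cases hLK : L.map φ ≤ K
    · exfalso
      have h3 : L ⊔ fieldCore F ≤ K.comap φ := by
        refine sup_le (Subgroup.map_le_iff_le_comap.1 hLK) ?_
        rw [hcore]
        exact Subgroup.comap_mono (sInf_le hcl)
      have h4 : (K.comap φ).index = K.index := Subgroup.index_comap_of_surjective _ hs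
      have h5 := Subgroup.index_dvd_of_le h3
      have h6 : (L ⊔ fieldCore F).index ≠ 0 := by
        have h7 : φ.ker ≤ L ⊔ fieldCore F := by
          refine le_trans ?_ le_sup_right
          rw [hcore]
          exact Subgroup.comap_mono bot_le
        have h8 : φ.ker.index ≠ 0 := by
          have := Finite.of_equiv _ (QuotientGroup.quotientKerEquivOfSurjective φ hs).symm.toEquiv
          exact Subgroup.index_ne_zero_of_finite
        intro hc
        exact h8 (Nat.eq_zero_of_zero_dvd (hc ▸ Subgroup.index_dvd_of_le h7))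
      have h7 := Nat.le_of_dvd (Nat.pos_of_ne_zero h6) h5
      omega
    · exact stepTwo_of_chain hSq (chain_of_normChain hSq hs hk hz hL) K hLK
  have h34 : NormChain F ⊤ → ∃ L : Subgroup Fˣ, NormChain F L ∧ (L ⊔ fieldCore F).index ≤ 4 :=
    fun h => ⟨⊤, h, by rw [top_sup_eq, Subgroup.index_top]; norm_num⟩
  have h12 : (∀ H : Subgroup Fˣ, H ≠ ⊤ → NormStep H) →
      ∀ H : Subgroup Fˣ, Critical H → NormStepTwo H ∨ NormPairs H :=
    fun h H hH => Or.inl (two_of_one H (h H (top_of H hH.2.1)))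
  rw [hE]
  exact ⟨⟨h1, fun h => h21 (h12 h)⟩, ⟨fun h => h12 (h1 h), h21⟩,
    ⟨h31, fun h => h41 (h34 h)⟩, ⟨fun h => h34 (h31 h), h41⟩⟩

end Pool.Agent.U111.NGC
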