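import Pool.Agent.U111.NGC.Main

set_option autoImplicit false

namespace Pool.Agent.U111.NGC

open Pool.Agent.H315R3.ETC Pool.Agent.TH188.ET Pool.Agent.TH673.VG Pool.Agent.R19.QS
  Pool.Agent.N88.ETC

universe u

/-- the three subgroups of index two over the intersection of two of them -/
lemma third {G : Type*} [Group G] {M₁ M₂ M : Subgroup G} (h1 : M₁.index = 2) (h2 : M₂.index = 2)
    (h3 : M.index = 2) (hle : M₁ ⊓ M₂ ≤ M) (n1 : M ≠ M₁) (n2 : M ≠ M₂) (x : G) :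
    x ∈ M ↔ (x ∈ M₁ ↔ x ∈ M₂) := by
  have key : ∀ N : Subgroup G, N.index = 2 → M ≠ N → ∃ u ∈ N, u ∉ M := by
    intro N hN hne
    by_contra hc
    push Not at hc
    have hNM : N ≤ M := hc
    have e := Subgroup.relIndex_mul_index hNM
    rw [h3, hN] at e
    have e1 : N.relIndex M = 1 := by omega
    exact hne (le_antisymm (Subgroup.relIndex_eq_one.1 e1) hNM)
  obtain ⟨u, hu1, huM⟩ := key M₁ h1 n1
  obtain ⟨v, hv2, hvM⟩ := key M₂ h2 n2
  have hu2 : u ∉ M₂ := fun hc => huM (hle ⟨hu1, hc⟩)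
  have hv1 : v ∉ M₁ := fun hc => hvM (hle ⟨hc, hv2⟩)
  by_cases x1 : x ∈ M₁ <;> by_cases x2 : x ∈ M₂
  · exact ⟨fun _ => ⟨fun _ => x2, fun _ => x1⟩, fun _ => hle ⟨x1, x2⟩⟩
  · have e : x * u ∈ M := hle ⟨(Subgroup.mul_mem_iff_of_index_two h1).2 ⟨fun _ => hu1, fun _ => x1⟩,
      (Subgroup.mul_mem_iff_of_index_two h2).2 ⟨fun hc => absurd hc x2, fun hc => absurd hc hu2⟩⟩
    have e' := (Subgroup.mul_mem_iff_of_index_two h3).1 e
    exact ⟨fun hx => absurd (e'.1 hx) huM, fun hx => absurd (hx.1 x1) x2⟩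
  · have e : x * v ∈ M := hle ⟨(Subgroup.mul_mem_iff_of_index_two h1).2
      ⟨fun hc => absurd hc x1, fun hc => absurd hc hv1⟩,
      (Subgroup.mul_mem_iff_of_index_two h2).2 ⟨fun _ => hv2, fun _ => x2⟩⟩
    have e' := (Subgroup.mul_mem_iff_of_index_two h3).1 e
    exact ⟨fun hx => absurd (e'.1 hx) hvM, fun hx => absurd (hx.2 x2) x1⟩
  · have i1 : u * v ∉ M₁ := fun hc => hv1 (((Subgroup.mul_mem_iff_of_index_two h1).1 hc).1 hu1)
    have i2 : u * v ∉ M₂ := fun hc => hu2 (((Subgroup.mul_mem_iff_of_index_two h2).1 hc).2 hv2)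
    have i3 : u * v ∈ M := (Subgroup.mul_mem_iff_of_index_two h3).2
      ⟨fun hc => absurd hc huM, fun hc => absurd hc hvM⟩
    have e : x * (u * v) ∈ M := hle ⟨(Subgroup.mul_mem_iff_of_index_two h1).2
      ⟨fun hc => absurd hc x1, fun hc => absurd hc i1⟩,
      (Subgroup.mul_mem_iff_of_index_two h2).2 ⟨fun hc => absurd hc x2, fun hc => absurd hc i2⟩⟩
    have e' := (Subgroup.mul_mem_iff_of_index_two h3).1 e
    exact ⟨fun _ => ⟨fun hc => absurd hc x1, fun hc => absurd hc x2⟩, fun _ => e'.2 i3⟩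

section sat

variable {S : QData} (h : IsQuat S) [Finite S.G]

include h in
/-- closed subgroups of index eight: if one of the three subgroups `M` of index two which contain
`H` and `-a` is not of the form `V(ag) H`, `g ∈ H`, then `H` has the property `StepTwo` -/
theorem stepTwo_of_missing {H : Subgroup S.G} (hcl : Closed S H) (h8 : H.index = 8) {a : S.G}
    (ha : a ∉ H) (ha' : S.neg * a ∉ H) {M : Subgroup S.G} (hM : M.index = 2) (hHM : H ≤ M)
    (hnM : S.neg * a ∈ M) (hno : ∀ g ∈ H, D h (a * g) ⊔ H ≠ M) : StepTwo S H := by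
  set K := H ⊔ Subgroup.zpowers (S.neg * a) with hK
  have hK4 : K.index ≤ 4 := by
    have : 2 * K.index ≤ H.index := two_mul_index (lt_sup_zpowers ha')
    omega
  have hout : ∀ g ∈ H, a * g ∉ H := fun g hg hc => ha (by
    have := H.mul_mem hc (H.inv_mem hg)
    rwa [mul_inv_cancel_right] at this)
  have hKM : ∀ g ∈ H, K ≤ D h (a * g) ⊔ H := by
    intro g hg
    rw [hK, sup_le_iff]
    refine ⟨le_sup_right, ?_⟩
    rw [Subgroup.zpowers_le]
    have e : S.neg * a = (S.neg * (a * g)) * g := by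
      rw [mul_assoc, mul_assoc, h.exp2, mul_one]
    rw [e]
    exact Subgroup.mul_mem_sup (h.qs1 (a * g)) hg
  have hKM' : K ≤ M := by
    rw [hK, sup_le_iff, Subgroup.zpowers_le]
    exact ⟨hHM, hnM⟩
  have htwo : ∀ g ∈ H, (D h (a * g) ⊔ H).index = 2 ∨ D h (a * g) ⊔ H ≤ K := by
    intro g hg
    have h1 : (D h (a * g) ⊔ H).index ≠ 1 := by
      rw [Ne, Subgroup.index_eq_one]
      exact closed_sup h hcl (hout g hg)
    have h2 := index_pos (D h (a * g) ⊔ H)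
    by_cases h3 : (D h (a * g) ⊔ H).index = 2
    · exact Or.inl h3
    · right
      have e := Subgroup.relIndex_mul_index (hKM g hg)
      have h4 : K.relIndex (D h (a * g) ⊔ H) ≠ 0 := Subgroup.FiniteIndex.index_ne_zero
      have h5 : K.relIndex (D h (a * g) ⊔ H) = 1 := by
        by_contra hc
        have h6 : 2 * 3 ≤ K.relIndex (D h (a * g) ⊔ H) * (D h (a * g) ⊔ H).index :=
          Nat.mul_le_mul (by omega) (by omega)
        omega
      exact Subgroup.relIndex_eq_one.1 h5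
  have hsplit : ∀ y x : S.G, x ∈ D h y ⊔ H → ∃ v k : S.G, S.q y v = S.zero ∧ k ∈ H ∧ v * k = x := by
    intro y x hx
    obtain ⟨v, hv, k, hk, e⟩ := Subgroup.mem_sup.1 hx
    exact ⟨v, k, hv, hk, e⟩
  -- one subgroup above all
  have hone : ∀ g₁ ∈ H, (∀ g ∈ H, D h (a * g) ⊔ H ≤ D h (a * g₁) ⊔ H) → StepTwo S H := by
    intro g₁ hg₁ hle
    refine stepTwo_of_step ⟨a * g₁, hout g₁ hg₁, fun l hl x hx => ?_⟩
    rw [mul_assoc] at hx
    exact hsplit _ _ (hle (g₁ * l) (H.mul_mem hg₁ hl) (Subgroup.mem_sup_left hx))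
  by_cases hA : ∃ g₁ ∈ H, (D h (a * g₁) ⊔ H).index = 2
  swap
  · push Not at hA
    refine hone 1 H.one_mem fun g hg => ?_
    exact ((htwo g hg).resolve_left (hA g hg)).trans (hKM 1 H.one_mem)
  obtain ⟨g₁, hg₁, i1⟩ := hA
  by_cases hB : ∃ g₂ ∈ H, (D h (a * g₂) ⊔ H).index = 2 ∧ D h (a * g₂) ⊔ H ≠ D h (a * g₁) ⊔ H
  swap
  · push Not at hB
    refine hone g₁ hg₁ fun g hg => ?_
    rcases htwo g hg with h1 | h1
    · exact (hB g hg h1).le
    · exact h1.trans (hKM g₁ hg₁)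
  obtain ⟨g₂, hg₂, i2, hne⟩ := hB
  have hinf : (D h (a * g₁) ⊔ H) ⊓ (D h (a * g₂) ⊔ H) ≤ K := by
    have hlt : (D h (a * g₁) ⊔ H) ⊓ (D h (a * g₂) ⊔ H) < D h (a * g₁) ⊔ H := by
      refine lt_of_le_of_ne inf_le_left fun e => hne ?_
      have hle : D h (a * g₁) ⊔ H ≤ D h (a * g₂) ⊔ H := inf_eq_left.1 e
      have e1 := Subgroup.relIndex_mul_index hle
      rw [i1, i2] at e1
      have e2 : (D h (a * g₁) ⊔ H).relIndex (D h (a * g₂) ⊔ H) = 1 := by omega
      exact le_antisymm (Subgroup.relIndex_eq_one.1 e2) hle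
    have h1 := two_mul_index hlt
    rw [i1] at h1
    have hle : K ≤ (D h (a * g₁) ⊔ H) ⊓ (D h (a * g₂) ⊔ H) := le_inf (hKM g₁ hg₁) (hKM g₂ hg₂)
    have e := Subgroup.relIndex_mul_index hle
    have h4 : K.relIndex ((D h (a * g₁) ⊔ H) ⊓ (D h (a * g₂) ⊔ H)) ≠ 0 :=
      Subgroup.FiniteIndex.index_ne_zero
    have h5 : K.relIndex ((D h (a * g₁) ⊔ H) ⊓ (D h (a * g₂) ⊔ H)) = 1 := by
      by_contra hc
      have h6 : 2 * 4 ≤ K.relIndex ((D h (a * g₁) ⊔ H) ⊓ (D h (a * g₂) ⊔ H)) *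
          ((D h (a * g₁) ⊔ H) ⊓ (D h (a * g₂) ⊔ H)).index := Nat.mul_le_mul (by omega) (by omega)
      omega
    exact Subgroup.relIndex_eq_one.1 h5
  have hall : ∀ g ∈ H, D h (a * g) ⊔ H ≤ D h (a * g₁) ⊔ H ∨
      D h (a * g) ⊔ H ≤ D h (a * g₂) ⊔ H := by
    intro g hg
    rcases htwo g hg with h1 | h1
    · by_cases n1 : D h (a * g) ⊔ H = D h (a * g₁) ⊔ H
      · exact Or.inl n1.le
      by_cases n2 : D h (a * g) ⊔ H = D h (a * g₂) ⊔ H
      · exact Or.inr n2.le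
      exfalso
      apply hno g hg
      ext x
      rw [third i1 i2 h1 (hinf.trans (hKM g hg)) n1 n2,
        third i1 i2 hM (hinf.trans hKM') (hno g₁ hg₁).symm (hno g₂ hg₂).symm]
    · exact Or.inl (h1.trans (hKM g₁ hg₁))
  have hg12 : a * g₁ * (g₁ * g₂) = a * g₂ := by
    rw [mul_assoc, ← mul_assoc g₁ g₁ g₂, h.exp2, one_mul]
  refine ⟨a * g₁, hout g₁ hg₁, g₁ * g₂, H.mul_mem hg₁ hg₂, fun l hl x hx => Or.inl ?_⟩
  rw [mul_assoc] at hx
  have hx' : x ∈ D h (a * (g₁ * l)) ⊔ H := Subgroup.mem_sup_left hx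
  rw [hg12]
  rcases hall (g₁ * l) (H.mul_mem hg₁ hl) with h1 | h1
  · obtain ⟨v, k, hv, hk, e⟩ := hsplit _ _ (h1 hx')
    exact ⟨v, k, Or.inl hv, hk, e⟩
  · obtain ⟨v, k, hv, hk, e⟩ := hsplit _ _ (h1 hx')
    exact ⟨v, k, Or.inr hv, hk, e⟩

end sat


section fld

variable {F : Type u} [Field F]

lemma two_mul_index' {G : Type*} [Group G] {A B : Subgroup G} (hAB : A < B) (h0 : A.index ≠ 0) :
    2 * B.index ≤ A.index := by
  have h8 := Subgroup.relIndex_mul_index hAB.le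
  have h1 : A.relIndex B ≠ 1 := by
    rw [Ne, Subgroup.relIndex_eq_one]
    exact not_le_of_gt hAB
  have h2 : A.relIndex B ≠ 0 := by
    intro h2
    rw [h2, zero_mul] at h8
    exact h0 h8.symm
  calc 2 * B.index ≤ A.relIndex B * B.index := Nat.mul_le_mul_right _ (by omega)
    _ = A.index := h8

/-- a field with core of index at most 32 which is not of elementary type -/
theorem saturated (h2 : (2 : F) ≠ 0) (hfin : FinSq F) (hi : (fieldCore F).index ≤ 32)
    (hne : ¬ ∃ S : QData, Elem S ∧ IsStructureOf F S) :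
    ∃ H : Subgroup Fˣ, NormClosed H ∧ H.index = 8 ∧ ¬ NormStepTwo H ∧ ¬ NormPairs H ∧
      ∀ a : Fˣ, a ∉ H → -a ∉ H → ∀ M : Subgroup Fˣ, M.index = 2 → H ≤ M → -a ∈ M →
        ∃ g ∈ H, normGroup (a * g) ⊔ H = M := by
  obtain ⟨H, hH, hnot⟩ : ∃ H : Subgroup Fˣ, Critical H ∧ ¬ (NormStepTwo H ∨ NormPairs H) := by
    by_contra hc
    push Not at hc
    exact hne ((criteria h2 hfin).2.1.2 hc)
  push Not at hnot
  obtain ⟨hcl, h8, hx⟩ := hH
  obtain ⟨S, hS, hSfin, hSq⟩ := exists_structure h2 hfin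
  obtain ⟨φ, hs, hk, hn, h0, hq⟩ := id hS
  have hz : ∀ a b : Fˣ, S.q (φ a) (φ b) = S.zero ↔ NormFrom a b := by
    intro a b
    rw [← qiso_one h2, ← h0, ← map_one φ]
    exact hq a b 1 1
  have hcore := core_comap h2 hs hk hSfin hz
  have hC0 : (fieldCore F).index ≠ 0 := by
    rw [hcore, Subgroup.index_comap_of_surjective _ hs]
    exact index_pos _
  have hCH : fieldCore F ≤ H := sInf_le hcl
  have h8' : H.index = 8 := by
    have hCne : fieldCore F ≠ H := by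
      intro e
      apply hx 1
      rw [Subgroup.zpowers_one_eq_bot, sup_bot_eq, e]
    obtain ⟨x, hxH, hxC⟩ : ∃ x ∈ H, x ∉ fieldCore F := by
      by_contra hc
      push Not at hc
      exact hCne (le_antisymm hCH hc)
    have hlt1 : fieldCore F < fieldCore F ⊔ Subgroup.zpowers x := by
      refine lt_of_le_of_ne le_sup_left fun e => hxC ?_
      rw [e]
      exact Subgroup.mem_sup_right (Subgroup.mem_zpowers x)
    have hlt2 : fieldCore F ⊔ Subgroup.zpowers x < H := by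
      refine lt_of_le_of_ne (sup_le hCH (by rwa [Subgroup.zpowers_le])) fun e => hx x e.symm
    have i1 := two_mul_index' hlt1 hC0
    have hD0 : (fieldCore F ⊔ Subgroup.zpowers x).index ≠ 0 := by
      intro e
      exact hC0 (Nat.eq_zero_of_zero_dvd (e ▸ Subgroup.index_dvd_of_le hlt1.le))
    have i2 := two_mul_index' hlt2 hD0
    omega
  refine ⟨H, hcl, h8', hnot.1, hnot.2, fun a ha ha' M hM hHM hnM => ?_⟩
  by_contra hno
  push Not at hno
  have hkH : φ.ker ≤ H := by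
    refine le_trans ?_ hCH
    rw [hcore]
    exact Subgroup.comap_mono bot_le
  have eH : (H.map φ).comap φ = H := Subgroup.comap_map_eq_self hkH
  have eM : (M.map φ).comap φ = M := Subgroup.comap_map_eq_self (hkH.trans hHM)
  have hneg : φ (-a) = S.neg * φ a := by
    rw [← hn, ← map_mul, neg_one_mul]
  have hmem : ∀ (N : Subgroup Fˣ), (N.map φ).comap φ = N → ∀ x, φ x ∈ N.map φ ↔ x ∈ N := by
    intro N eN x
    conv_rhs => rw [← eN]
    exact Iff.rfl
  apply hnot.1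
  rw [← eH]
  refine (stepTwo_iff' hs hk hz _).1 ?_
  refine stepTwo_of_missing hSq (a := φ a) (M := M.map φ) ((closed_iff' hs hk hz hSfin _).1
    (by rw [eH]; exact hcl)) ?_ ?_ ?_ ?_ (Subgroup.map_mono hHM) ?_ ?_
  · rw [← Subgroup.index_comap_of_surjective _ hs, eH, h8']
  · rw [hmem H eH]
    exact ha
  · rw [← hneg, hmem H eH]
    exact ha'
  · rw [← Subgroup.index_comap_of_surjective _ hs, eM, hM]
  · rw [← hneg, hmem M eM]
    exact hnM
  · rintro g ⟨g, hg, rfl⟩ e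
    apply hno g hg
    ext x
    have e1 : φ x ∈ D hSq (φ a * φ g) ⊔ H.map φ ↔ x ∈ M := by
      rw [e, hmem M eM]
    rw [← e1]
    conv_lhs => rw [← eH]
    rw [mem_sup_comap hs hz, Subgroup.mem_sup, map_mul]
    constructor
    · rintro ⟨v, k, hv, hk', e2⟩
      exact ⟨v, hv, k, hk', e2⟩
    · rintro ⟨v, hv, k, hk', e2⟩
      exact ⟨v, k, hv, hk', e2⟩

end fld

end Pool.Agent.U111.NGC
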